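import Pool.Agent.R184CA.Bilin
import Pool.Agent.Helper509.SQ.Index

/-! A Banach space whose Calkin algebra is `ℂ[q]/(q³)`, and generalized inverses of Fredholm
operators. -/

set_option autoImplicit false

open Filter Topology Module

namespace Pool.Agent.Helper509.GI

/-- the truncated product -/
def tm (a b : ℂ × ℂ × ℂ) : ℂ × ℂ × ℂ :=
  (a.1 * b.1, a.1 * b.2.1 + a.2.1 * b.1, a.1 * b.2.2 + a.2.1 * b.2.1 + a.2.2 * b.1)

/-- the truncated product as a bounded bilinear map -/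
noncomputable def tmL : (ℂ × ℂ × ℂ) →L[ℂ] (ℂ × ℂ × ℂ) →L[ℂ] (ℂ × ℂ × ℂ) :=
  LinearMap.toContinuousLinearMap
    ((LinearMap.toContinuousLinearMap (E := ℂ × ℂ × ℂ) (F' := ℂ × ℂ × ℂ) (𝕜 := ℂ)).toLinearMap ∘ₗ
      LinearMap.mk₂ ℂ tm
        (by
          intro a b c
          refine Prod.ext ?_ (Prod.ext ?_ ?_) <;> simp [tm] <;> ring)
        (by
          intro r a b
          refine Prod.ext ?_ (Prod.ext ?_ ?_) <;> simp [tm] <;> ring)
        (by
          intro a b c
          refine Prod.ext ?_ (Prod.ext ?_ ?_) <;> simp [tm] <;> ring)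
        (by
          intro r a b
          refine Prod.ext ?_ (Prod.ext ?_ ?_) <;> simp [tm] <;> ring))

lemma tmL_apply (a b : ℂ × ℂ × ℂ) : tmL a b = tm a b := rfl

/-- There is a Banach space whose Calkin algebra is `ℂ[q]/(q³)`. -/
theorem exists_space : ∃ (X : Type) (_ : NormedAddCommGroup X) (_ : NormedSpace ℂ X)
    (_ : CompleteSpace X) (Φ : (X →L[ℂ] X) →L[ℂ] (ℂ × ℂ × ℂ)),
    Φ 1 = (1, 0, 0) ∧ (∀ S T, Φ (S * T) = tm (Φ S) (Φ T)) ∧ Function.Surjective Φ ∧
      ∀ T, Φ T = 0 ↔ IsCompactOperator T := by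
  obtain ⟨X, i1, i2, i3, P, Φ, -, -, -, -, h1, h2, h3, h4⟩ :=
    R184CA.bilin (𝕜 := ℂ) (A := ℂ × ℂ × ℂ) tmL
      (by
        intro a b c
        simp only [tmL_apply]
        refine Prod.ext ?_ (Prod.ext ?_ ?_) <;> simp [tm] <;> ring)
      (1, 0, 0)
      (by
        intro a
        rw [tmL_apply]
        refine Prod.ext ?_ (Prod.ext ?_ ?_) <;> simp [tm])
      (by
        intro a
        rw [tmL_apply]
        refine Prod.ext ?_ (Prod.ext ?_ ?_) <;> simp [tm])
      (fun _ => ContinuousLinearMap.id ℂ (ℂ × ℂ × ℂ)) 1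
      (fun _ => ContinuousLinearMap.norm_id_le) (fun _ _ _ => rfl)
      (fun _ => inferInstance) (fun _ => tendsto_const_nhds) (fun _ _ _ => rfl)
  exact ⟨X, i1, i2, i3, Φ, h1, fun S T => by rw [h2, tmL_apply], h3, h4⟩

variable {𝕜 : Type} [RCLike 𝕜] {X Y : Type} [NormedAddCommGroup X] [NormedSpace 𝕜 X]
  [NormedAddCommGroup Y] [NormedSpace 𝕜 Y]

/-- Operators with a finite-dimensional kernel and a finite-codimensional range have an inner
inverse. -/
lemma exists_inner [CompleteSpace X] [CompleteSpace Y] (T : X →L[𝕜] Y)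
    (h1 : FiniteDimensional 𝕜 (LinearMap.ker (T : X →ₗ[𝕜] Y)))
    (h2 : FiniteDimensional 𝕜 (Y ⧸ LinearMap.range (T : X →ₗ[𝕜] Y))) :
    ∃ U : Y →L[𝕜] X, ∀ x, T (U (T x)) = T x := by
  set N := LinearMap.ker (T : X →ₗ[𝕜] Y) with hN
  set R := LinearMap.range (T : X →ₗ[𝕜] Y) with hR
  obtain ⟨C, hC⟩ := Submodule.exists_isCompl R
  have hCf : FiniteDimensional 𝕜 C :=
    (Submodule.quotientEquivOfIsCompl R C hC).finiteDimensional
  obtain ⟨P, hP⟩ := Submodule.ClosedComplemented.of_finiteDimensional N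
  have := FiniteDimensional.complete 𝕜 C
  have := FiniteDimensional.complete 𝕜 N
  let f : (X × C) →L[𝕜] (Y × N) :=
    (T.comp (ContinuousLinearMap.fst 𝕜 X C) + C.subtypeL.comp (ContinuousLinearMap.snd 𝕜 X C)).prod
      (P.comp (ContinuousLinearMap.fst 𝕜 X C))
  have hf : ∀ x c, f (x, c) = (T x + c, P x) := fun x c => rfl
  have hinj : LinearMap.ker (f : (X × C) →ₗ[𝕜] (Y × N)) = ⊥ := by
    rw [LinearMap.ker_eq_bot']
    rintro ⟨x, c⟩ h
    have h' : (T x + (c : Y), P x) = 0 := h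
    have h3 : T x + (c : Y) = 0 := congrArg Prod.fst h'
    have h4 : P x = 0 := congrArg Prod.snd h'
    have h5 : (c : Y) = 0 := by
      have h6 : (c : Y) ∈ R := by
        rw [eq_neg_of_add_eq_zero_right h3]
        exact R.neg_mem ⟨x, rfl⟩
      exact (Submodule.disjoint_def.1 hC.disjoint) _ h6 c.2
    have h6 : x ∈ N := by
      rw [h5, add_zero] at h3
      exact h3
    have h7 : x = 0 := by
      have h8 := hP ⟨x, h6⟩
      have h9 : P x = ⟨x, h6⟩ := h8
      rw [h4] at h9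
      exact (congrArg Subtype.val h9).symm
    rw [h7]
    exact Prod.ext rfl (Subtype.ext h5)
  have hsurj : LinearMap.range (f : (X × C) →ₗ[𝕜] (Y × N)) = ⊤ := by
    rw [LinearMap.range_eq_top]
    rintro ⟨y, n⟩
    obtain ⟨r, hr, c, hc, hrc⟩ := Submodule.mem_sup.1 (hC.sup_eq_top ▸ Submodule.mem_top (x := y))
    obtain ⟨x, hx⟩ := hr
    refine ⟨(x + (n - P x : N), ⟨c, hc⟩), ?_⟩
    show (T (x + (n - P x : N)) + c, P (x + (n - P x : N))) = (y, n)
    have h3 : T ((n - P x : N) : X) = 0 := (n - P x : N).2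
    have h4 : P ((n - P x : N) : X) = n - P x := hP _
    have h5 : T x = r := hx
    rw [map_add, h3, add_zero, map_add, h4, h5, hrc]
    simp
  let M := ContinuousLinearEquiv.ofBijective f hinj hsurj
  refine ⟨(ContinuousLinearMap.fst 𝕜 X C).comp
    ((M.symm : (Y × N) →L[𝕜] (X × C)).comp (ContinuousLinearMap.inl 𝕜 Y N)), fun x => ?_⟩
  show T (M.symm (T x, 0)).1 = T x
  have h3 : f (M.symm (T x, 0)) = (T x, 0) := M.apply_symm_apply (T x, 0)
  have h4 : T (M.symm (T x, 0)).1 + ((M.symm (T x, 0)).2 : Y) = T x := congrArg Prod.fst h3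
  have h5 : ((M.symm (T x, 0)).2 : Y) = 0 := by
    refine (Submodule.disjoint_def.1 hC.disjoint) _ ?_ (M.symm (T x, 0)).2.2
    have h6 : ((M.symm (T x, 0)).2 : Y) = T x - T (M.symm (T x, 0)).1 :=
      eq_sub_of_add_eq' h4
    rw [h6]
    exact R.sub_mem ⟨x, rfl⟩ ⟨_, rfl⟩
  rw [h5, add_zero] at h4
  exact h4

/-- Operators invertible modulo the compact operators have a generalized inverse. -/
lemma exists_genInverse [CompleteSpace X] (T S : X →L[𝕜] X)
    (h1 : IsCompactOperator (S.comp T - 1 : X →L[𝕜] X))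
    (h2 : IsCompactOperator (T.comp S - 1 : X →L[𝕜] X)) :
    ∃ U : X →L[𝕜] X, T * U * T = T ∧ U * T * U = U := by
  have h3 : FiniteDimensional 𝕜 (LinearMap.ker (T : X →ₗ[𝕜] X)) := by
    have := SQ.ker_fin h1
    refine Submodule.finiteDimensional_of_le
      (S₂ := LinearMap.ker ((S.comp T : X →L[𝕜] X) : X →ₗ[𝕜] X)) ?_
    intro x hx
    have hx' : T x = 0 := hx
    show S (T x) = 0
    rw [hx', map_zero]
  have h4 : FiniteDimensional 𝕜 (X ⧸ LinearMap.range (T : X →ₗ[𝕜] X)) := by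
    have := SQ.quot_fin h2
    have hle : LinearMap.range ((T.comp S : X →L[𝕜] X) : X →ₗ[𝕜] X) ≤
        LinearMap.range (T : X →ₗ[𝕜] X) := by
      rintro _ ⟨y, rfl⟩
      exact ⟨S y, rfl⟩
    exact Module.Finite.of_surjective (Submodule.factor hle) (Submodule.factor_surjective hle)
  obtain ⟨U, hU⟩ := exists_inner T h3 h4
  refine ⟨U * T * U, ?_, ?_⟩
  · refine ContinuousLinearMap.ext fun x => ?_
    show T (U (T (U (T x)))) = T x
    rw [hU, hU]
  · refine ContinuousLinearMap.ext fun x => ?_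
    show U (T (U (T (U (T (U x)))))) = U (T (U x))
    rw [hU, hU]

end Pool.Agent.Helper509.GI
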